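import Pool.Agent.N207.NR.Main
import Pool.Agent.N207.AX.Exp
import Pool.Agent.N227.CF.Low
import Pool.Agent.N878.AX.LINE
import Pool.Agent.N301.AX.IND
import Pool.Agent.N945.AX.ELL

/-!
# Measures of algebraic independence for the logarithms of all conjugates of values of algebraic functions

Let `K` be a number field and `α_1, …, α_n` algebraic functions on a variety over `K` with coordinates in the affine
space `A ^ X`, multiplicatively independent modulo constants. For a point `s` with coordinates in `K` we consider the
`n [K : ℚ]` logarithms of all conjugates `φ(α_i(s))`, `φ` running through the embeddings of `K`. The conjecture says that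
the values of the nonzero polynomials of given degree with integral coefficients of size at most `H` at these numbers are
at least `H ^ (-C)`, if the logarithms are linearly independent over the rational numbers. We show this for 100 percent
of the points `s` with given denominators of height at most `T`, for all polynomials of growing degree whose height is
at most a growing power of `T`, relative to arbitrary constants, with `T ^ (-ψ(T))` for any `ψ → ∞` in place of
`H ^ (-C)`.
-/

set_option autoImplicit false

open Filter NumberField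

namespace Pool.Agent.Results.MP_3cf473_nt.AllConjugates

/-- Logarithms `l_1, …, l_n` of algebraic functions of several variables, multiplicatively independent modulo constants,
on a connected nonempty open set -/
structure Logarithms {X : Type} [Fintype X] {n : ℕ} (U : Set (X → ℂ)) (l : Fin n → (X → ℂ) → ℂ) : Prop where
  isOpen : IsOpen U
  isPreconnected : IsPreconnected U
  nonempty : U.Nonempty
  analytic : ∀ i, AnalyticOnNhd ℂ (l i) U
  /-- the functions `exp(l_i)` satisfy polynomial equations over the polynomials in the coordinates -/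
  algebraic : ∀ i, ∃ Q : Polynomial (MvPolynomial X ℂ), Q ≠ 0 ∧
    ∀ z ∈ U, Q.eval₂ (MvPolynomial.eval z) (Complex.exp (l i z)) = 0
  /-- no nontrivial combination with integral coefficients of the `l_i` is constant -/
  independent : ∀ (m : Fin n → ℤ) (b : ℂ), (∀ z ∈ U, ∑ i, (m i : ℂ) * l i z = b) → m = 0

/-- the points of norm at most `k` at distance at least `1 / k` from the complement of `U` -/
def Inner {X : Type} [Fintype X] (U : Set (X → ℂ)) (k : ℕ) : Set (X → ℂ) := {z | ‖z‖ ≤ k ∧ Metric.ball z (k : ℝ)⁻¹ ⊆ U}

/-- the points with integral coordinates in `K` all of whose conjugates are at most `T` in absolute value -/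
def Points (K X : Type) [Field K] [NumberField K] (T : ℝ) : Set (X → 𝓞 K) := {a | ∀ j, house (a j : K) ≤ T}

variable {K X : Type} [Field K] [NumberField K] [Fintype X] {n : ℕ}

/-- **The exceptional points**: `s` in `K ^ X`, all of whose conjugates `φ s` are in the compact sets `Inner (U φ) k`,
such that for some polynomial `R` in `n [K : ℚ]` variables, of partial degrees at most `k`, whose coefficients are
combinations `∑ ξ i * c i` with integers `c i` of `L` all of whose conjugates are at most `T ^ k`, the value at the
numbers `l φ i (φ s)` is at most `δ` times the absolute value of some nonzero coefficient of `R` -/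
def Exceptional (U : (K →+* ℂ) → Set (X → ℂ)) (l : (K →+* ℂ) → Fin n → (X → ℂ) → ℂ) (L : Type) [Field L]
    [NumberField L] (io : L →+* ℂ) (k : ℕ) (ξ : Fin k → ℂ) (T δ : ℝ) : Set (X → K) :=
  {s | (∀ φ : K →+* ℂ, (fun j => φ (s j)) ∈ Inner (U φ) k) ∧
    ∃ R : MvPolynomial ((K →+* ℂ) × Fin n) ℂ, (∀ y, R.degreeOf y ≤ k) ∧
    (∀ m, ∃ c : Fin k → 𝓞 L, (∀ i (φ : L →+* ℂ), ‖φ (c i : L)‖ ≤ T ^ (k : ℝ)) ∧
      R.coeff m = ∑ i, ξ i * io (c i : L)) ∧
    ∃ m, R.coeff m ≠ 0 ∧ ‖MvPolynomial.eval (fun q => l q.1 q.2 fun j => q.1 (s j)) R‖ ≤ δ * ‖R.coeff m‖}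

/-- **Measures for the logarithms of all conjugates at almost all points.** Let `K` be a number field and let, for every
complex embedding `φ` of `K`, `l φ 1, …, l φ n` be logarithms of algebraic functions of several variables on `U φ`,
multiplicatively independent modulo constants. Let `ψ` be any function which tends to infinity.

There are `ω → ∞` and `C` such that for all large `T`, all number fields `L` of degree at most `ω T`, with an embedding
in the complex numbers such that `L` contains all conjugates of `K`, all complex numbers `ξ i`, `i < ω T`, and all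
integral points `b` of `K` of house at most `T` with nonzero coordinates, the proportion of the integral points `a` of
`K` of house at most `T` such that `a / b` is exceptional for `δ = T ^ (-ψ T)` is at most `C T ^ (-1 + 2 / ω T)`. So for
100 percent of the points `s = a / b` all nonzero polynomials `R` of growing degree and height, relative to arbitrary
constants, satisfy `|R| > T ^ (-ψ T) * max |coefficient of R|` at the `n [K : ℚ]` logarithms `l φ i (φ s)`. -/
theorem result (K X : Type) [Field K] [NumberField K] [Fintype X] [DecidableEq X] [Nonempty X] (n : ℕ)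
    (U : (K →+* ℂ) → Set (X → ℂ)) (l : (K →+* ℂ) → Fin n → (X → ℂ) → ℂ) (h : ∀ φ, Logarithms (U φ) (l φ))
    (ψ : ℝ → ℝ) (hψ : Tendsto ψ atTop atTop) :
    ∃ (ω : ℝ → ℕ) (C T₀ : ℝ), Tendsto ω atTop atTop ∧ Monotone ω ∧ ∀ T, T₀ ≤ T → 0 < ω T ∧
      (Points K X T).Finite ∧ (Points K X T).Nonempty ∧
      ∀ (L : Type) [Field L] [NumberField L], Module.finrank ℚ L ≤ ω T → ∀ io : L →+* ℂ,
        (∀ φ : K →+* ℂ, ∃ φ' : K →+* L, io.comp φ' = φ) →
        ∀ (ξ : Fin (ω T) → ℂ), ∀ b ∈ Points K X T, (∀ j, b j ≠ 0) →
          ({a ∈ Points K X T | (fun j => (a j : K) / (b j : K)) ∈ Exceptional U l L io (ω T) ξ T (T ^ (-ψ T))}.ncard : ℝ) ≤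
            C * T ^ (-1 + 2 / (ω T : ℝ)) * (Points K X T).ncard := by
  classical
  have hI : ∀ φ : K →+* ℂ, N207.AX.Ind (U φ) (l φ) := by
    intro φ
    obtain ⟨e, he, hI⟩ := N207.AX.exp_ind (N945.AX.ell (N301.AX.ind N878.AX.line)) (h φ).isOpen (h φ).isPreconnected (h φ).nonempty (h φ).analytic
      (h φ).independent
    refine N207.AX.exch (f := fun y z => Sum.elim (fun k => l φ k z) (fun k => Complex.exp (l φ k z)) y)
      (b := Sum.inl) he hI fun i => ?_
    rcases i with i | i
    · exact Or.inl ⟨i, rfl⟩
    · exact Or.inr ((h φ).algebraic i)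
  obtain ⟨c, C₁, hc, hC₁, hlow⟩ := N227.CF.low K X
  obtain ⟨ω, C, T₀, hC, h1, h2, h3⟩ := N207.NR.conj_near (fun φ => (h φ).isPreconnected)
    (fun φ => (h φ).isOpen) (fun φ => (h φ).nonempty) (fun φ => (h φ).analytic) hI hψ
  refine ⟨ω, C / c, max T₀ 1, h1, h2, fun T hT => ⟨(h3 T ((le_max_left _ _).trans hT)).1, ?_, ?_, ?_⟩⟩
  · exact (hlow T ((le_max_right _ _).trans hT)).1
  · refine ⟨0, fun j => ?_⟩
    have h5 : ((0 : X → 𝓞 K) j : K) = 0 := by simp
    have h6 : house (0 : K) = 0 := by simp [house]
    rw [h5, h6]
    exact zero_le_one.trans ((le_max_right _ _).trans hT)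
  · intro L _ _ hL io hemb ξ b hb hb0
    have hT1 : 1 ≤ T := (le_max_right _ _).trans hT
    have hTp : 0 < T := by linarith
    obtain ⟨-, h4⟩ := (h3 T ((le_max_left _ _).trans hT)).2 L hL io hemb ξ b (fun j => ⟨hb0 j, hb j⟩)
    obtain ⟨-, h5, -⟩ := hlow T hT1
    have h6 : ({a ∈ Points K X T | (fun j => (a j : K) / (b j : K)) ∈ Exceptional U l L io (ω T) ξ T (T ^ (-ψ T))}.ncard : ℝ) ≤
        C * T ^ ((Module.finrank ℚ K * Fintype.card X : ℝ) - 1 + 2 * ((ω T : ℝ)⁻¹)) := h4
    refine h6.trans ?_
    have h7 : (T : ℝ) ^ ((Module.finrank ℚ K * Fintype.card X : ℝ) - 1 + 2 * ((ω T : ℝ)⁻¹)) =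
        T ^ (-1 + 2 / (ω T : ℝ)) * T ^ (Module.finrank ℚ K * Fintype.card X) := by
      rw [← Real.rpow_natCast T (Module.finrank ℚ K * Fintype.card X), ← Real.rpow_add hTp]
      congr 1
      push_cast
      ring
    rw [h7]
    have h8 : T ^ (Module.finrank ℚ K * Fintype.card X) ≤ ((Points K X T).ncard : ℝ) / c := by
      rw [le_div_iff₀ hc, mul_comm]
      exact h5
    calc C * (T ^ (-1 + 2 / (ω T : ℝ)) * T ^ (Module.finrank ℚ K * Fintype.card X)) ≤
          C * (T ^ (-1 + 2 / (ω T : ℝ)) * (((Points K X T).ncard : ℝ) / c)) :=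
          mul_le_mul_of_nonneg_left (mul_le_mul_of_nonneg_left h8 (by positivity)) hC
      _ = _ := by ring

end Pool.Agent.Results.MP_3cf473_nt.AllConjugates
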