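import Pool.Agent.N733.TG.M
import Pool.Agent.Results.MP_3cf473_nt.AlmostAllTuples

/-!
# The conjectural measure of algebraic independence for the logarithms of values of multiplicative functions

Let `f_1, …, f_k` be positive multiplicative functions of at most polynomial growth such that `f_i p ≤ M p` for the large
primes `p`, with different values at different large primes; for example Euler's function or the sum of the divisors. For
all `k` and `d` there is a constant `C` such that for all `U` and all large `N`: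

* for all but `N ^ k / (log N) ^ U` of the tuples `m` of integers in `[1, N]`, the lower bound `|P (l)| ≥ 1 / (N H ^ C)`
  holds for all heights `2 ≤ H ≤ exp (exp (N ^ (1 / C)))`, all logarithms `l i` of the numbers `f_i (m i)` with
  `|Im (l i)| ≤ H` and all nonzero polynomials `P` with integer coefficients, of degree at most `d` and height at most `H`
  (so `|P (l)| ≥ H ^ (- C - 1)` if moreover `H ≥ N`);
* for every single height `H ≥ N ^ 2`, the lower bound `|P (l)| ≥ H ^ (- C)` holds for all but `N ^ k / (log N) ^ U` of the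
  tuples `m`;
* for every unbounded set of heights, for all but `N ^ k / (log N) ^ U` of the tuples `m` the lower bound
  `|P (l)| ≥ H ^ (- C)` holds for arbitrarily large heights `H` in the set.

The tuples of values of such functions have density zero among the tuples of integers and they are in general taken with
very large multiplicities, so the theorem does not follow from the number of the exceptional tuples. The proof uses the
starting theorem `AlmostAllTuples` of this problem and the tool `Pool.Agent.N733.TG` (helper733): tuples of values of such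
functions avoid, for almost all arguments, every set with a power saving.
-/

set_option autoImplicit false

namespace Pool.Agent.Results.MP_3cf473_nt.MultiplicativeValues

open Pool.Agent.N733.TG (LM lm_totient lm_sigma tuples Box mem_Box)
open Pool.Agent.Results.MP_3cf473_nt.AlmostAllTuples (Small box)

open Classical in
lemma card_eq {k N : ℕ} (F : Fin k → ℕ → ℕ) (W : Set (Fin k → ℕ)) :
    {m : Fin k → ℕ | (∀ i, 1 ≤ m i ∧ m i ≤ N) ∧ (fun i => F i (m i)) ∈ W}.ncard =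
      ((Box k N).filter (fun m => (fun i => F i (m i)) ∈ W)).card := by
  rw [← Set.ncard_coe_finset]
  congr 1
  ext m
  simp only [Finset.coe_filter, mem_Box, Set.mem_ofPred_eq]

/-- **Logarithms of values of multiplicative functions.** -/
theorem result :
    (∀ k d : ℕ, 1 ≤ k → ∃ C : ℕ, 0 < C ∧ ∀ f : Fin k → ℕ → ℕ, (∀ i, LM (f i)) → ∀ U : ℕ, ∃ N₀ : ℕ, ∀ N : ℕ, N₀ ≤ N →
      ({m : Fin k → ℕ | (∀ i, 1 ≤ m i ∧ m i ≤ N) ∧ ∃ H : ℝ, 2 ≤ H ∧
          H ≤ Real.exp (Real.exp ((N : ℝ) ^ (1 / (C : ℝ)))) ∧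
          Small d H (1 / (N * H ^ C)) fun i => f i (m i)}.ncard : ℝ) ≤ (N : ℝ) ^ k / Real.log N ^ U ∧
      (∀ H : ℝ, (N : ℝ) ^ 2 ≤ H →
        ({m : Fin k → ℕ | (∀ i, 1 ≤ m i ∧ m i ≤ N) ∧ Small d H (1 / H ^ C) fun i => f i (m i)}.ncard : ℝ) ≤
          (N : ℝ) ^ k / Real.log N ^ U) ∧
      (∀ 𝓗 : Set ℝ, ¬ BddAbove 𝓗 →
        ({m : Fin k → ℕ | (∀ i, 1 ≤ m i ∧ m i ≤ N) ∧ ∃ H₀ : ℝ, ∀ H ∈ 𝓗, H₀ ≤ H →
          Small d H (1 / H ^ C) fun i => f i (m i)}.ncard : ℝ) ≤ (N : ℝ) ^ k / Real.log N ^ U)) ∧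
    (LM Nat.totient ∧ LM (fun m => ∑ d ∈ m.divisors, d)) := by
  classical
  refine ⟨fun k d hk => ?_, lm_totient, lm_sigma⟩
  obtain ⟨C, hC, h⟩ := AlmostAllTuples.result k d
  refine ⟨C, hC, fun f hf U => ?_⟩
  have hC1 : (1 : ℝ) ≤ C := by exact_mod_cast hC
  have hk1 : (1 : ℝ) ≤ k := by exact_mod_cast hk
  obtain ⟨c, hc⟩ : ∃ c : ℝ, c = 1 / (2 * C) := ⟨_, rfl⟩
  obtain ⟨ρ, hρ⟩ : ∃ ρ : ℝ, ρ = 1 / (2 * C * (k + 1)) := ⟨_, rfl⟩
  have hc0 : 0 < c := by rw [hc]; positivity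
  have hρ0 : 0 < ρ := by rw [hρ]; positivity
  have hcC : 1 / (C : ℝ) = 2 * c := by rw [hc]; field_simp
  have hρk : ρ * (k + 1) = c := by rw [hρ, hc]; field_simp
  have hc1 : 2 * c ≤ 1 := by
    rw [← hcC]
    exact div_le_one_of_le₀ hC1 (by positivity)
  have hρ1 : ρ ≤ 1 := by nlinarith
  obtain ⟨N₁, hN₁⟩ := tuples k f hf c ρ hc0 hρ0 (2 * C) U
  refine ⟨max N₁ 2, fun N hN => ?_⟩
  have hN2 : 2 ≤ N := (le_max_right _ _).trans hN
  have hN' : N₁ ≤ N := (le_max_left _ _).trans hN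
  have hN1 : (1 : ℝ) ≤ N := by
    have : (2 : ℝ) ≤ N := by exact_mod_cast hN2
    linarith
  obtain ⟨T, hT⟩ : ∃ T : ℕ, T = ⌊(N : ℝ) ^ (1 + ρ)⌋₊ := ⟨_, rfl⟩
  have hTle : (T : ℝ) ≤ (N : ℝ) ^ (1 + ρ) := by rw [hT]; exact Nat.floor_le (by positivity)
  have hNT : N ≤ T := by
    rw [hT]
    apply Nat.le_floor
    calc (N : ℝ) = (N : ℝ) ^ (1 : ℝ) := (Real.rpow_one _).symm
      _ ≤ (N : ℝ) ^ (1 + ρ) := Real.rpow_le_rpow_of_exponent_le hN1 (by linarith)
  have hNT' : (N : ℝ) ≤ T := by exact_mod_cast hNT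
  have hT1 : 1 ≤ T := by omega
  have hTN2 : (T : ℝ) ≤ (N : ℝ) ^ 2 := by
    refine hTle.trans ?_
    rw [← Real.rpow_natCast]
    exact Real.rpow_le_rpow_of_exponent_le hN1 (by push_cast; linarith)
  -- powers
  have p1 : (T : ℝ) ^ ((k : ℝ) - 1 / C) ≤ (N : ℝ) ^ ((k : ℝ) - c) := by
    rw [hcC]
    calc (T : ℝ) ^ ((k : ℝ) - 2 * c) ≤ ((N : ℝ) ^ (1 + ρ)) ^ ((k : ℝ) - 2 * c) :=
          Real.rpow_le_rpow (Nat.cast_nonneg _) hTle (by linarith)
      _ = (N : ℝ) ^ ((1 + ρ) * ((k : ℝ) - 2 * c)) := by rw [← Real.rpow_mul (by linarith)]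
      _ ≤ (N : ℝ) ^ ((k : ℝ) - c) := by
          apply Real.rpow_le_rpow_of_exponent_le hN1
          nlinarith
  have p2 : (1 / (N : ℝ)) ^ (1 / (C : ℝ)) * (T : ℝ) ^ k ≤ (N : ℝ) ^ ((k : ℝ) - c) := by
    have e1 : (1 / (N : ℝ)) ^ (1 / (C : ℝ)) = (N : ℝ) ^ (-(2 * c)) := by
      rw [hcC, one_div, Real.inv_rpow (by linarith), Real.rpow_neg (by linarith)]
    have e2 : (T : ℝ) ^ k ≤ (N : ℝ) ^ ((1 + ρ) * k) := by
      calc (T : ℝ) ^ k ≤ ((N : ℝ) ^ (1 + ρ)) ^ k := pow_le_pow_left₀ (Nat.cast_nonneg _) hTle k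
        _ = (N : ℝ) ^ ((1 + ρ) * k) := by rw [← Real.rpow_natCast, ← Real.rpow_mul (by linarith)]
    rw [e1]
    calc (N : ℝ) ^ (-(2 * c)) * (T : ℝ) ^ k ≤ (N : ℝ) ^ (-(2 * c)) * (N : ℝ) ^ ((1 + ρ) * k) :=
          mul_le_mul_of_nonneg_left e2 (by positivity)
      _ = (N : ℝ) ^ (-(2 * c) + (1 + ρ) * k) := by rw [← Real.rpow_add (by linarith)]
      _ ≤ (N : ℝ) ^ ((k : ℝ) - c) := by
          apply Real.rpow_le_rpow_of_exponent_le hN1
          nlinarith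
  obtain ⟨g1, g2, g3⟩ := h T hT1
  have hcard : ∀ W : Set (Fin k → ℕ), (((box k T).filter fun n => n ∈ W).card : ℝ) ≤ 2 * C * (N : ℝ) ^ ((k : ℝ) - c) →
      ({m : Fin k → ℕ | (∀ i, 1 ≤ m i ∧ m i ≤ N) ∧ (fun i => f i (m i)) ∈ W}.ncard : ℝ) ≤
        (N : ℝ) ^ k / Real.log N ^ U := by
    intro W hW
    have h1 := hN₁ N hN' W (by
      rw [← hT]
      refine le_trans (le_of_eq ?_) hW
      congr!)
    rw [card_eq]
    exact h1
  have hpos : (0 : ℝ) ≤ (N : ℝ) ^ ((k : ℝ) - c) := by positivity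
  refine ⟨?_, fun H hH => ?_, fun 𝓗 h𝓗 => ?_⟩
  · have q1 := g1 (1 / N) (by positivity) (div_le_one_of_le₀ hN1 (by positivity))
    have q2 : (C : ℝ) * ((1 / (N : ℝ)) ^ (1 / (C : ℝ)) * (T : ℝ) ^ k + (T : ℝ) ^ ((k : ℝ) - 1 / C)) ≤
        2 * C * (N : ℝ) ^ ((k : ℝ) - c) := by
      nlinarith
    have q3 := hcard {n : Fin k → ℕ | ∃ H : ℝ, 2 ≤ H ∧ H ≤ Real.exp (Real.exp ((T : ℝ) ^ (1 / (C : ℝ)))) ∧
      Small d H (1 / (N : ℝ) / H ^ C) n} (q1.trans q2)
    refine le_trans ?_ q3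
    have hfin : {m : Fin k → ℕ | (∀ i, 1 ≤ m i ∧ m i ≤ N) ∧ (fun i => f i (m i)) ∈
        {n : Fin k → ℕ | ∃ H : ℝ, 2 ≤ H ∧ H ≤ Real.exp (Real.exp ((T : ℝ) ^ (1 / (C : ℝ)))) ∧
          Small d H (1 / (N : ℝ) / H ^ C) n}}.Finite := by
      apply (Fintype.piFinset fun _ : Fin k => Finset.Icc 1 N).finite_toSet.subset
      intro m hm
      rw [Finset.mem_coe, Fintype.mem_piFinset]
      exact fun i => Finset.mem_Icc.2 (hm.1 i)
    refine Nat.cast_le.2 (Set.ncard_le_ncard ?_ hfin)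
    rintro m ⟨hm, H, hH1, hH2, hH3⟩
    refine ⟨hm, H, hH1, hH2.trans ?_, ?_⟩
    · apply Real.exp_le_exp.2
      apply Real.exp_le_exp.2
      exact Real.rpow_le_rpow (by linarith) hNT' (by positivity)
    · rw [div_div]
      exact hH3
  · have hH2 : (2 : ℝ) ≤ H := by
      have : (2 : ℝ) ≤ N := by exact_mod_cast hN2
      nlinarith
    have q1 := g2 H hH2 (hTN2.trans hH)
    have q2 : (C : ℝ) * (T : ℝ) ^ ((k : ℝ) - 1 / C) ≤ 2 * C * (N : ℝ) ^ ((k : ℝ) - c) := by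
      nlinarith
    exact hcard {n : Fin k → ℕ | Small d H (1 / H ^ C) n} (q1.trans q2)
  · have q1 := g3 𝓗 h𝓗
    have q2 : (C : ℝ) * (T : ℝ) ^ ((k : ℝ) - 1 / C) ≤ 2 * C * (N : ℝ) ^ ((k : ℝ) - c) := by
      nlinarith
    exact hcard {n : Fin k → ℕ | ∃ H₀ : ℝ, ∀ H ∈ 𝓗, H₀ ≤ H → Small d H (1 / H ^ C) n} (q1.trans q2)

end Pool.Agent.Results.MP_3cf473_nt.MultiplicativeValues
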