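import Mathlib
import Pool.Agent.N778.CH.ScaleL

set_option autoImplicit false

/-!
# At every scale `H`: at most one exception among `log b` and the integrals `∫_1^b (log t)^l e^(-x t) dt / t`

Let `x > 0` be a rational number. For `b > 0` and `l ≥ 0` let `L_l(b) = ∫_1^b (log t)^l e^(-x t) dt / t`, and for
`l ≥ 1` let `E_l = ∑_{m ≥ 1} (-1)^(m-1) x^m / (m! m^l)`.

(1) Let `T` be a finite set of the numbers `log b`, `L_l(b)` (`b > 0` rational, `b ≠ 1`, `l ≥ 0`), and let `m` and `D` be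
natural numbers. There are `κ` and `c > 0` with the following property. For every `H ≥ 1` one can leave out, for each `b`, at
most one of the numbers `log b, L_0(b), L_1(b), …` which belong to `T`, such that the numbers `e, E_1, …, E_m` and all the
remaining numbers of `T` satisfy `|P(…)| ≥ c / H^κ` for all nonzero integral polynomials `P` of degree at most `D` and
height at most `H`.

(2) Let `B` be a finite set of positive rational numbers different from `1` (for example of primes), and let `n, m, D` be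
natural numbers. There are `κ` and `c > 0` such that for every `H ≥ 1` there is a subset `S` of `B` with the property that
the numbers `e, E_1, …, E_m`, `log b` (`b` in `S`) and `L_l(b)` (`b` in `B` but not in `S`, `l ≤ n`) satisfy
`|P(…)| ≥ c / H^κ` for all nonzero integral polynomials `P` of degree at most `D` and height at most `H`.

(3) Let `B, n, m, D` be as in (2). There are `κ` and `c > 0` such that for every `H ≥ 1` at least one of the following holds: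
the numbers `e, E_1, …, E_m` and all `log b`, `b` in `B`, satisfy `|P(…)| ≥ c / H^κ` for all nonzero integral polynomials
`P` of degree at most `D` and height at most `H`; or for some `b` in `B` the numbers
`e, E_1, …, E_m, L_0(b), …, L_n(b)` have this property. So if, for the degree `D`, the inequality of the problem fails for
the logarithms of the elements of `B` at the height `H` (with `κ`, `c` in place of the constant `C`), then it
holds at the height `H` for the numbers `L_l(b)`, `l ≤ n`, together with `e` and the `E_l`, for some `b` in `B`.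
-/

namespace Pool.Agent.Results.MP_3cf473_nt.OneExceptionPerLogarithm

open Set MvPolynomial

/-- `L_l(b) = ∫_1^b (log t)^l e^(-x t) dt / t` -/
noncomputable def L (x : ℝ) (l : ℕ) (b : ℝ) : ℝ := ∫ t in (1 : ℝ)..b, Real.log t ^ l * Real.exp (-(x * t)) / t

/-- `E_l = ∑_{m ≥ 1} (-1)^(m-1) x^m / (m! m^l)` -/
noncomputable def E (l : ℕ) (x : ℝ) : ℝ :=
  ∑' m : ℕ, -(-x) ^ (m + 1) / ((m + 1).factorial * ((m : ℝ) + 1) ^ l)

/-- the numbers `e` (index `0`), `E_1, …, E_m` -/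
noncomputable def first (x : ℝ) (m : ℕ) (i : Fin (m + 1)) : ℝ := if i = 0 then Real.exp 1 else E i x

/-- the numbers `log b, L_0(b), L_1(b), …` -/
noncomputable def value (x b : ℝ) : ℕ → ℝ
  | 0 => Real.log b
  | l + 1 => L x l b

/-- every nonzero integral polynomial of degree at most `D` and height at most `H` has at the point `θ` an absolute value
`≥ δ` -/
def Good {ι : Type} (θ : ι → ℝ) (D : ℕ) (δ H : ℝ) : Prop :=
  ∀ P : MvPolynomial ι ℤ, P ≠ 0 → P.totalDegree ≤ D → (∀ s, |((P.coeff s : ℤ) : ℝ)| ≤ H) → δ ≤ |aeval θ P|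

/-- the substitution `t = e^s` -/
theorem L_eq (x : ℝ) (l : ℕ) {b : ℝ} (hb : 0 < b) : L x l b = Pool.Agent.N778.XE.JI l x (Real.log b) := by
  have h1 := intervalIntegral.integral_comp_mul_deriv'' (a := 0) (b := Real.log b) (f := Real.exp) (f' := Real.exp)
    (g := fun t : ℝ => Real.log t ^ l * Real.exp (-(x * t)) / t) Real.continuous_exp.continuousOn
    (fun s _ => (Real.hasDerivAt_exp s).hasDerivWithinAt) Real.continuous_exp.continuousOn (by
      rintro t ⟨s, -, rfl⟩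
      refine ContinuousAt.continuousWithinAt ?_
      have h0 : Real.exp s ≠ 0 := (Real.exp_pos s).ne'
      refine ContinuousAt.div (ContinuousAt.mul ((Real.continuousAt_log h0).pow l) ?_) continuousAt_id h0
      fun_prop)
  rw [Real.exp_zero, Real.exp_log hb] at h1
  rw [L, ← h1, Pool.Agent.N778.XE.JI]
  refine intervalIntegral.integral_congr fun s _ => ?_
  show (Real.log (Real.exp s) ^ l * Real.exp (-(x * Real.exp s)) / Real.exp s) * Real.exp s = _
  rw [Real.log_exp, div_mul_cancel₀ _ (Real.exp_pos s).ne']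

theorem value_eq (x : ℝ) {b : ℝ} (hb : 0 < b) (k : ℕ) : value x b k = Pool.Agent.N778.CH.LV x b k := by
  rcases k with _ | l
  · rfl
  · exact L_eq x l hb

theorem first_eq (x : Pool.Agent.N778.CH.QP) (m : ℕ) (i : Fin (m + 1)) :
    first (x.1 : ℝ) m i = Pool.Agent.N778.CH.EV (if i = 0 then none else some ((i : ℕ) - 1, x)) := by
  rw [first]
  split_ifs with h
  · rfl
  · have h1 : (i : ℕ) ≠ 0 := fun h' => h (Fin.ext h')
    have h2 : (i : ℕ) - 1 + 1 = i := by omega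
    show E i (x.1 : ℝ) = Pool.Agent.R352.E.EE ((i : ℕ) - 1 + 1) (x.1 : ℝ)
    rw [h2]
    rfl

theorem Good.comp {ι κ : Type} {θ : ι → ℝ} {D : ℕ} {δ H : ℝ} (h : Good θ D δ H) (hH : 1 ≤ H) (g : κ → ι)
    (hg : Function.Injective g) : Good (θ ∘ g) D δ H :=
  Pool.Agent.N778.CH.Good.comp h hH g hg

theorem part1 (x : ℚ) (hx : 0 < x) (m : ℕ) (T : Finset (ℚ × ℕ)) (hT : ∀ p ∈ T, 0 < p.1 ∧ p.1 ≠ 1) (D : ℕ) :
    ∃ κ : ℕ, ∃ c : ℝ, 0 < c ∧ ∀ H : ℝ, 1 ≤ H → ∃ N : Finset (ℚ × ℕ), N ⊆ T ∧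
      (∀ p ∈ N, ∀ q ∈ N, p.1 = q.1 → p = q) ∧
        Good (Sum.elim (first x m) (fun p : {p // p ∈ T ∧ p ∉ N} => value x p.1.1 p.1.2)) D (c / H ^ κ) H := by
  obtain ⟨κ, c, hc, h⟩ := Pool.Agent.N778.CH.scale_logs ⟨x, hx⟩ m T hT D
  refine ⟨κ, c, hc, fun H hH => ?_⟩
  obtain ⟨N, h1, h2, h3⟩ := h H hH
  refine ⟨N, h1, h2, ?_⟩
  have e : (Sum.elim (first (x : ℝ) m) (fun p : {p // p ∈ T ∧ p ∉ N} => value x p.1.1 p.1.2)) =
      Sum.elim (fun i : Fin (m + 1) => Pool.Agent.N778.CH.EV (if i = 0 then none else some ((i : ℕ) - 1, ⟨x, hx⟩)))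
        (fun p : {p // p ∈ T ∧ p ∉ N} => Pool.Agent.N778.CH.LV (x : ℝ) (p.1.1 : ℝ) p.1.2) := by
    funext i
    rcases i with i | p
    · exact first_eq ⟨x, hx⟩ m i
    · have hb : (0 : ℝ) < (p.1.1 : ℝ) := by exact_mod_cast (hT _ p.2.1).1
      exact value_eq x hb p.1.2
  rw [e]
  exact h3

theorem part2 (x : ℚ) (hx : 0 < x) (B : Finset ℚ) (hB : ∀ b ∈ B, 0 < b ∧ b ≠ 1) (n m D : ℕ) :
    ∃ κ : ℕ, ∃ c : ℝ, 0 < c ∧ ∀ H : ℝ, 1 ≤ H → ∃ S : Finset ℚ, S ⊆ B ∧
      Good (Sum.elim (first x m) (Sum.elim (fun b : {b // b ∈ S} => Real.log (b : ℚ))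
        (fun p : {b // b ∈ B ∧ b ∉ S} × Fin (n + 1) => L x p.2 (p.1 : ℚ)))) D (c / H ^ κ) H := by
  classical
  let T : Finset (ℚ × ℕ) := B ×ˢ Finset.range (n + 2)
  obtain ⟨κ, c, hc, h⟩ := part1 x hx m T (fun p hp => hB _ (Finset.mem_product.1 hp).1) D
  refine ⟨κ, c, hc, fun H hH => ?_⟩
  obtain ⟨N, h1, h2, h3⟩ := h H hH
  refine ⟨B.filter fun b => (b, 0) ∉ N, Finset.filter_subset _ _, ?_⟩
  have hS1 : ∀ b, b ∈ B.filter (fun b => (b, 0) ∉ N) → (b, 0) ∈ T ∧ (b, 0) ∉ N := fun b hb =>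
    ⟨Finset.mem_product.2 ⟨(Finset.mem_filter.1 hb).1, Finset.mem_range.2 (by omega)⟩, (Finset.mem_filter.1 hb).2⟩
  have hS2 : ∀ b, b ∈ B ∧ b ∉ B.filter (fun b => (b, 0) ∉ N) → ∀ l : Fin (n + 1), (b, (l : ℕ) + 1) ∈ T ∧
      (b, (l : ℕ) + 1) ∉ N := by
    rintro b ⟨h4, h5⟩ l
    refine ⟨Finset.mem_product.2 ⟨h4, Finset.mem_range.2 (by omega)⟩, fun h6 => ?_⟩
    have h7 : (b, 0) ∈ N := by
      by_contra h8
      exact h5 (Finset.mem_filter.2 ⟨h4, h8⟩)
    have h9 := congrArg Prod.snd (h2 _ h6 _ h7 rfl)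
    exact absurd h9 (by simp)
  let g : Fin (m + 1) ⊕ ({b // b ∈ B.filter fun b => (b, 0) ∉ N} ⊕
      ({b // b ∈ B ∧ b ∉ B.filter fun b => (b, 0) ∉ N} × Fin (n + 1))) → Fin (m + 1) ⊕ {p // p ∈ T ∧ p ∉ N} :=
    Sum.elim Sum.inl (Sum.elim (fun b => Sum.inr ⟨(b.1, 0), hS1 b.1 b.2⟩)
      (fun p => Sum.inr ⟨(p.1.1, (p.2 : ℕ) + 1), hS2 p.1.1 p.1.2 p.2⟩))
  have hg : Function.Injective g := by
    rintro (i | b | p) (j | b' | p') hh
    · exact congrArg Sum.inl (Sum.inl_injective hh)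
    · exact absurd hh (by simp [g])
    · exact absurd hh (by simp [g])
    · exact absurd hh (by simp [g])
    · have h4 : b.1 = b'.1 := congrArg (fun z : {p // p ∈ T ∧ p ∉ N} => z.1.1) (Sum.inr_injective hh)
      rw [Subtype.ext h4]
    · have h4 : 0 = (p'.2 : ℕ) + 1 := congrArg (fun z : {p // p ∈ T ∧ p ∉ N} => z.1.2) (Sum.inr_injective hh)
      exact absurd h4 (by simp)
    · exact absurd hh (by simp [g])
    · have h4 : (p.2 : ℕ) + 1 = 0 := congrArg (fun z : {p // p ∈ T ∧ p ∉ N} => z.1.2) (Sum.inr_injective hh)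
      exact absurd h4 (by simp)
    · have h4 : p.1.1 = p'.1.1 := congrArg (fun z : {p // p ∈ T ∧ p ∉ N} => z.1.1) (Sum.inr_injective hh)
      have h5 : (p.2 : ℕ) + 1 = (p'.2 : ℕ) + 1 :=
        congrArg (fun z : {p // p ∈ T ∧ p ∉ N} => z.1.2) (Sum.inr_injective hh)
      have h6 : p = p' := Prod.ext (Subtype.ext h4) (Fin.ext (Nat.succ_injective h5))
      rw [h6]
  have h4 := h3.comp hH g hg
  convert h4 using 1
  funext i
  rcases i with i | b | p <;> rfl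

theorem result (x : ℚ) (hx : 0 < x) :
    -- (1)
    (∀ (m : ℕ) (T : Finset (ℚ × ℕ)), (∀ p ∈ T, 0 < p.1 ∧ p.1 ≠ 1) → ∀ D : ℕ,
      ∃ κ : ℕ, ∃ c : ℝ, 0 < c ∧ ∀ H : ℝ, 1 ≤ H → ∃ N : Finset (ℚ × ℕ), N ⊆ T ∧
        (∀ p ∈ N, ∀ q ∈ N, p.1 = q.1 → p = q) ∧
          Good (Sum.elim (first x m) (fun p : {p // p ∈ T ∧ p ∉ N} => value x p.1.1 p.1.2)) D (c / H ^ κ) H) ∧
    -- (2)
    (∀ B : Finset ℚ, (∀ b ∈ B, 0 < b ∧ b ≠ 1) → ∀ n m D : ℕ,
      ∃ κ : ℕ, ∃ c : ℝ, 0 < c ∧ ∀ H : ℝ, 1 ≤ H → ∃ S : Finset ℚ, S ⊆ B ∧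
        Good (Sum.elim (first x m) (Sum.elim (fun b : {b // b ∈ S} => Real.log (b : ℚ))
          (fun p : {b // b ∈ B ∧ b ∉ S} × Fin (n + 1) => L x p.2 (p.1 : ℚ)))) D (c / H ^ κ) H) ∧
    -- (3)
    (∀ B : Finset ℚ, (∀ b ∈ B, 0 < b ∧ b ≠ 1) → ∀ n m D : ℕ,
      ∃ κ : ℕ, ∃ c : ℝ, 0 < c ∧ ∀ H : ℝ, 1 ≤ H →
        Good (Sum.elim (first x m) (fun b : {b // b ∈ B} => Real.log (b : ℚ))) D (c / H ^ κ) H ∨
        ∃ b ∈ B, Good (Sum.elim (first x m) (fun l : Fin (n + 1) => L x l b)) D (c / H ^ κ) H) := by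
  refine ⟨fun m T hT D => part1 x hx m T hT D, fun B hB n m D => part2 x hx B hB n m D, fun B hB n m D => ?_⟩
  obtain ⟨κ, c, hc, h⟩ := part2 x hx B hB n m D
  refine ⟨κ, c, hc, fun H hH => ?_⟩
  obtain ⟨S, h1, h2⟩ := h H hH
  by_cases hS : ∀ b ∈ B, b ∈ S
  · left
    have h3 := h2.comp hH (Sum.map id (fun b : {b // b ∈ B} => (Sum.inl (⟨b.1, hS b.1 b.2⟩ : {b // b ∈ S}) :
      {b // b ∈ S} ⊕ ({b // b ∈ B ∧ b ∉ S} × Fin (n + 1))))) (Function.Injective.sumMap Function.injective_id (by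
        intro a b hab
        have h4 : (⟨a.1, hS a.1 a.2⟩ : {b // b ∈ S}) = ⟨b.1, hS b.1 b.2⟩ := Sum.inl_injective (by exact hab)
        exact Subtype.ext (congrArg (fun z : {b // b ∈ S} => z.1) h4)))
    convert h3 using 1
    funext i
    rcases i with i | b <;> rfl
  · right
    push Not at hS
    obtain ⟨b, hb, hbS⟩ := hS
    refine ⟨b, hb, ?_⟩
    have h3 := h2.comp hH (Sum.map id (fun l : Fin (n + 1) => (Sum.inr ((⟨b, hb, hbS⟩ : {b // b ∈ B ∧ b ∉ S}), l) :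
      {b // b ∈ S} ⊕ ({b // b ∈ B ∧ b ∉ S} × Fin (n + 1))))) (Function.Injective.sumMap Function.injective_id (by
        intro l l' hl
        have h4 : ((⟨b, hb, hbS⟩ : {b // b ∈ B ∧ b ∉ S}), l) = ((⟨b, hb, hbS⟩ : {b // b ∈ B ∧ b ∉ S}), l') :=
          Sum.inr_injective (by exact hl)
        exact congrArg Prod.snd h4))
    convert h3 using 1
    funext i
    rcases i with i | l <;> rfl

end Pool.Agent.Results.MP_3cf473_nt.OneExceptionPerLogarithm
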