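import Pool.Agent.N743.Spars

/-!
# Measures of algebraic independence for a logarithm and an arbitrary number

Let `x ≠ 0` be any logarithm of a rational number or of an element of `ℚ(i)`, and let `t` be an arbitrary complex number,
for instance a logarithm of an algebraic number. For every degree `D` and every `M > 1` there are constants `A` and `C`,
which do not depend on `t`, such that:

* (windows) if `x` and `t` satisfy no algebraic relation of degree at most `D`, then the lower bound of Q1 for
  `n = 2`, `|P(x, t)| ≥ H ^ (-C)` for all nonzero integer polynomials `P` of degree at most `D` and height at most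
  `H`, holds for all heights `H` in arbitrarily large intervals `[Z, Z ^ M]`;
* (exceptions) for ALL heights `H ≥ 2` it holds for all `P` which are not divisible by an exceptional polynomial; a
  polynomial `F` is exceptional if it is irreducible and `|F(x, t)| < H(F) ^ (-A)`, and
* there are very few of them: for every large `H` at most one exceptional polynomial has a height between `H` and `H ^ M`;
  so at most `N + log (log H) / log M` have height at most `H`, where `N` is the same for all `t` in a disc.
-/

set_option autoImplicit false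

namespace Pool.Agent.Results.MP_3cf473_nt.PairsOfLogarithms

open Polynomial Pool.Agent.N743

/-- `x` is a nonzero logarithm (any branch) of a nonzero element of `ℚ(i)`. -/
def GaussianLog (x : ℂ) : Prop :=
  x ≠ 0 ∧ ∃ a b : GaussianInt, b ≠ 0 ∧ GaussianInt.toComplex b * Complex.exp x = GaussianInt.toComplex a

/-- `P(x, t) = 0` for a nonzero polynomial `P` with integer coefficients, of degree at most `D` in
each variable -/
def Related (D : ℕ) (x t : ℂ) : Prop :=
  ∃ P : ℤ[X][X], P ≠ 0 ∧ P.natDegree ≤ D ∧ (∀ j, (P.coeff j).natDegree ≤ D) ∧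
    aevalAeval x t P = 0

/-- **Main result.** -/
theorem result (x : ℂ) (hx : GaussianLog x) (D : ℕ) (hD : 1 ≤ D) (M : ℝ) (hM : 1 < M) :
    ∃ A C : ℝ, 0 < A ∧ 0 < C ∧
      -- the measure of Q1 on long intervals of heights
      (∀ t : ℂ, ¬ Related D x t → ∀ K : ℝ, ∃ Z ≥ K, ∀ H, Z ≤ H → H ≤ Z ^ M →
        ∀ P : ℤ[X][X], P ≠ 0 → Small D H P → H ^ (-C) ≤ ‖aevalAeval x t P‖) ∧
      -- the measure of Q1 for all heights and all polynomials without exceptional factor
      (∀ t : ℂ, ∀ H : ℝ, 2 ≤ H → ∀ P : ℤ[X][X], P ≠ 0 → Small D H P →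
        (∀ F, Exceptional D A x t F → ¬ F ∣ P) → H ^ (-C) ≤ ‖aevalAeval x t P‖) ∧
      -- there are very few exceptional polynomials
      ∀ T : ℝ, ∃ K N : ℝ, 1 < K ∧ ∀ t : ℂ, ‖t‖ ≤ T →
        (∀ H ≥ K, ∀ F G, Exceptional D A x t F → Exceptional D A x t G → ¬ Small D H F →
          ¬ Small D H G → Small D (H ^ M) F → Small D (H ^ M) G → F = G) ∧
        ∀ H : ℝ, 3 ≤ H → {F | Exceptional D A x t F ∧ Small D H F}.Finite ∧
          ({F | Exceptional D A x t F ∧ Small D H F}.ncard : ℝ) ≤
            N + Real.log (Real.log H) / Real.log M := by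
  have hm : Pool.Agent.TH456.TM.MeasT x := by
    obtain ⟨h0, a, b, hb, hab⟩ := hx
    have h1 := Pool.Agent.TH456.TM.measT_gauss x h0 a b 1 hb (by simp) hab
    simpa using h1
  obtain ⟨A, hA, hs⟩ := exc_sparse x hm D hD M hM
  obtain ⟨C₁, hC₁, hw⟩ := windows x hm D hD M hM
  have hc := one_le_cF D
  obtain ⟨C₂, hC₂⟩ : ∃ C₂ : ℝ, C₂ = (Real.log (cF D) / Real.log 2 + 1) * (2 * D * A) := ⟨_, rfl⟩
  have hl2 : 0 < Real.log 2 := Real.log_pos (by norm_num)
  have hlc : 0 ≤ Real.log (cF D) := Real.log_nonneg hc
  have hC₂0 : 0 ≤ C₂ := by rw [hC₂]; positivity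
  refine ⟨A, max C₁ C₂, hA, lt_max_of_lt_left hC₁, fun t ht K => ?_, fun t H hH P hP hS hE => ?_,
    fun T => hs A le_rfl T⟩
  · obtain ⟨Z, hZ, h⟩ := hw t ht (max K 1)
    refine ⟨Z, (le_max_left _ _).trans hZ, fun H hH1 hH2 P hP hS => ?_⟩
    have hH : 1 ≤ H := (le_max_right _ _).trans (hZ.trans hH1)
    refine le_trans ?_ (h H hH1 hH2 P hP hS).le
    exact Real.rpow_le_rpow_of_exponent_le hH (by have := le_max_left C₁ C₂; linarith)
  · have h1 := no_factor x t D A hA P hP H (by linarith) hS hE
    refine le_trans ?_ h1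
    have hH0 : 0 < H := by linarith
    have hcH : 0 < cF D * H := by positivity
    have h2 : cF D ≤ H ^ (Real.log (cF D) / Real.log 2) := by
      have e1 : cF D = 2 ^ (Real.log (cF D) / Real.log 2) := by
        rw [Real.rpow_def_of_pos (by norm_num), mul_div_cancel₀ _ hl2.ne', Real.exp_log (by linarith)]
      conv_lhs => rw [e1]
      exact Real.rpow_le_rpow (by norm_num) hH (by positivity)
    have h3 : cF D * H ≤ H ^ (Real.log (cF D) / Real.log 2 + 1) := by
      rw [Real.rpow_add hH0, Real.rpow_one]
      exact mul_le_mul_of_nonneg_right h2 hH0.le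
    calc H ^ (-max C₁ C₂) ≤ H ^ (-C₂) :=
          Real.rpow_le_rpow_of_exponent_le (by linarith) (by have := le_max_right C₁ C₂; linarith)
      _ = (H ^ (Real.log (cF D) / Real.log 2 + 1)) ^ (-(2 * D * A)) := by
          rw [← Real.rpow_mul hH0.le, hC₂]
          congr 1
          ring
      _ ≤ (cF D * H) ^ (-(2 * D * A)) :=
          Real.rpow_le_rpow_of_nonpos hcH h3 (by
            have : 0 ≤ 2 * (D : ℝ) * A := by positivity
            linarith)

end Pool.Agent.Results.MP_3cf473_nt.PairsOfLogarithms
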